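import Pool.Agent.H209Z.BT.Bridge

set_option autoImplicit false

namespace Pool.Agent.Results.MP_a5aa7c_an.AFiniteRank

open Pool.Agent.H209Z.BTS MeasureTheory
open scoped ENNReal

/-- the Hardy space and the block Toeplitz operator of a bounded symbol exist -/
theorem exists_toeplitz (E : Type) [NormedAddCommGroup E] [InnerProductSpace ℂ E]
    [FiniteDimensional ℂ E] [CompleteSpace E] (Φ : UnitAddCircle → E →L[ℂ] E)
    (hΦ : MemLp Φ ∞ AddCircle.haarAddCircle) :
    ∃ (S : Submodule ℂ (Lp E 2 (AddCircle.haarAddCircle (T := 1)))) (_ : CompleteSpace S)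
      (T : S →L[ℂ] S), IsBlockToeplitz Φ S T :=
  ⟨_, _, _, Pool.Agent.H209Z.BT.isBlockToeplitz_toLp hΦ⟩

/-- Let `E` be a finite-dimensional complex inner product space. If the block Toeplitz operator
with essentially bounded symbol `Φ` is hyponormal and its self-commutator has finite rank `r`,
then some finite Blaschke-Potapov product `B` lies in `E(Φ)` and `det B` has degree `r`. -/
theorem result (E : Type) [NormedAddCommGroup E] [InnerProductSpace ℂ E]
    [FiniteDimensional ℂ E] [CompleteSpace E] (Φ : UnitAddCircle → E →L[ℂ] E)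
    (hΦ : MemLp Φ ∞ AddCircle.haarAddCircle)
    (S : Submodule ℂ (Lp E 2 (AddCircle.haarAddCircle (T := 1)))) [CompleteSpace S]
    (T : S →L[ℂ] S) (hT : IsBlockToeplitz Φ S T) (r : ℕ) (h : HyponormalOfRank T r) :
    ∃ B : ℂ → E →L[ℂ] E,
      IsBlaschkePotapov B ∧ MemE Φ (fun t => B (fourier 1 t)) ∧ degDet B = r :=
  Pool.Agent.H209Z.BT.bridge hΦ S T hT r h

end Pool.Agent.Results.MP_a5aa7c_an.AFiniteRank
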